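import Pool.Agent.H611R3.Lists

/-!
# Co-nondeterministic circuits with few NOT gates need many guesses

A co-nondeterministic circuit has `N` input bits `x` and guess bits `z` and accepts `x` if its
output `f z x` is one for all `z`. Circuits here consist of AND and OR gates of fan-in two and of
arbitrary further gates, of arbitrary fan-in, with any number of outputs and computing arbitrary
functions (NOT gates, for instance). `Helped s K f` says that for all `z` the function `f z` is
computed by at most `s` AND and OR gates from constants, the bits `x` and the wires of one of
finitely many circuits `C i` which read only `x` and which have at most `s` AND gates, OR gates and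
wires into the further gates; the further gates are few: the sum over all `i` of
`∏ (a + 1) - 1`, the product ranging over the further gates of `C i`, `a` being the fan-in, is less
than `K`. How `f z` depends on `z` is arbitrary. For instance, `K = 1` if every `f z` has a monotone
circuit with at most `s` gates, and `K = 2 ^ t' * (2 ^ t - 1) + 1` if there are `t` NOT gates, which
may be fed by gates that depend on `x` and on `t'` of the guess bits, if all other gates are
monotone in `x`.

There is an NP-complete language `L` such that for all `N` and `r`, for some word `h` of length
`O(r ^ 8)`: the function of `x` which tells whether `h x` is in `L` is monotone, and every such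
co-nondeterministic circuit with `s < 2 ^ (r - 1)` that computes it on `{0,1} ^ N` has at least
`N / (120000 r ^ 16 K)` guess bits. So `2 ^ (t + t') * g` is at least `N / polylog N` for circuits
of polynomial size with `g` guess bits.

This is almost optimal: one NOT gate that may depend on `⌈log (N + 1)⌉` guess bits suffices to
simulate arbitrary co-nondeterministic circuits (guess the number of ones of `x`), as do
`⌈log (N + 1)⌉` NOT gates which depend only on `x` (Markov, Fischer).

The language: lists of graphs on `v` vertices, one of which has a clique with `k` vertices (given
as `1 ^ v 0 1 ^ k 0` followed by adjacency matrices).

The proof: cut `x` into `K` segments; the predicate is the disjunction of the predicates for the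
segments. If the bits entering the further gates do not change as long as the first segments are
fixed negative instances, the next one runs through all negative instances and the others are zero,
then replacing the outputs of the further gates by constants and letting each `f z` accept if an
input bit of its further gates changes gives a family of monotone functions for one segment
(`Transfer.lean`). Otherwise there is a chain of inputs, along which the bits entering the further
gates change `K` times, which is impossible. For families of monotone circuits, consider
`m`-tuples of complete `(k-1)`-partite graphs: each guess rejects a fraction of at most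
`(3/4) ^ m` of the tuples, by Razborov's method of approximations, and all have to be rejected.
-/

namespace Pool.Agent.Results.MP_9cec2c_lc.CoNondetNegations

open Pool.Agent.H611R2 Pool.Agent.H611R3 Pool.Agent.NPC

theorem result : ∃ L : Set (List Bool), InNP L ∧ NPHard L ∧ ∀ N r : ℕ, 2 ≤ r →
    ∃ h : List Bool, h.length ≤ 201 * r ^ 8 ∧
      (∀ x y : Fin N → Bool, x ≤ y → h ++ List.ofFn x ∈ L → h ++ List.ofFn y ∈ L) ∧
      ∀ (s K g : ℕ) (f : (Fin g → Bool) → (Fin N → Bool) → Bool),
        2 * s < 2 ^ r → Helped s K f →
        (∀ x : Fin N → Bool, h ++ List.ofFn x ∈ L ↔ ∀ z, f z x = true) →
        N / (120000 * r ^ 16 * K) ≤ g := by
  refine ⟨LC.ListClique, LC.inNP_listClique, LC.npHard_listClique, fun N r hr => ?_⟩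
  refine ⟨hdr (200 * r ^ 8) (r ^ 2), hdr_length hr, fun x y hxy hx => ?_, ?_⟩
  · rw [hdr_mem] at hx ⊢
    exact hasClique_mono hxy hx
  · intro s K g f hs hf hF
    exact coNondet_neg hr hs f hf hF

end Pool.Agent.Results.MP_9cec2c_lc.CoNondetNegations
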