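import Mathlib
import Pool.Agent.Helper600R2.Quad.Codes
import Pool.Agent.Helper600R2.Quad.Derive
import Pool.Agent.Helper600R2.Quad.Numeric

/-!
Polynomial-size CNFs on `N` variables for which refutations whose lines are Boolean functions of
few formulas of size `N ^ (2 - ε)` need exponentially many lines, while `N ^ 9` lines of size
`N ^ (2 + ε)` suffice.
-/

namespace Pool.Agent.Results.MP_9cec2c_lc.QuadraticLines

/-- Propositional formulas over the variables `V`, of unbounded depth. -/
inductive Fml (V : Type) : Type
  | const : Bool → Fml V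
  | var : V → Fml V
  | neg : Fml V → Fml V
  | and : Fml V → Fml V → Fml V
  | or : Fml V → Fml V → Fml V

/-- Truth value of a formula. -/
def Fml.eval {V : Type} (z : V → Bool) : Fml V → Bool
  | .const b => b
  | .var v => z v
  | .neg f => !(f.eval z)
  | .and f g => f.eval z && g.eval z
  | .or f g => f.eval z || g.eval z

/-- Size of a formula: the number of occurrences of variables. -/
def Fml.size {V : Type} : Fml V → ℕ
  | .const _ => 0
  | .var _ => 1
  | .neg f => f.size
  | .and f g => f.size + g.size
  | .or f g => f.size + g.size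

/-- A clause over `N` variables: a finite set of literals; the literal `(x, s)` says that the
variable `x` has the value `s`. -/
abbrev Clause (N : ℕ) := Finset (Fin N × Bool)

/-- The assignment `z` satisfies the clause. -/
def Clause.Holds {N : ℕ} (z : Fin N → Bool) (c : Clause N) : Prop := ∃ l ∈ c, z l.1 = l.2

/-- A line: an arbitrary Boolean function `comb` of `r` formulas. -/
structure Line (N r : ℕ) where
  parts : Fin r → Fml (Fin N)
  comb : (Fin r → Bool) → Bool

/-- Truth value of a line. -/
def Line.eval {N r : ℕ} (z : Fin N → Bool) (l : Line N r) : Bool :=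
  l.comb fun i => (l.parts i).eval z

/-- A refutation of the CNF `F` with `S` lines, each of which is a Boolean function of `r`
formulas of size at most `s`.  Every line is implied by a clause of `F` or by at most `a` earlier
lines, and some line is unsatisfiable. -/
structure Refutation {N : ℕ} (F : Finset (Clause N)) (a r s S : ℕ) where
  line : Fin S → Line N r
  size_le : ∀ j i, ((line j).parts i).size ≤ s
  sound : ∀ j, (∃ c ∈ F, ∀ z, c.Holds z → (line j).eval z = true) ∨
    ∃ P : Finset (Fin S), P.card ≤ a ∧ (∀ p ∈ P, p < j) ∧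
      ∀ z, (∀ p ∈ P, (line p).eval z = true) → (line j).eval z = true
  final : ∃ j, ∀ z, (line j).eval z = false

open H542 (T evs leavess comb evs_comb leavess_comb)
open Finset Pool.Agent.Helper600R2.Quad

/-- partial inverse of an injection -/
noncomputable def pinv {A : Type} {N : ℕ} (e : A ↪ Fin N) (v : Fin N) : Option A := by
  classical
  exact if h : ∃ w, e w = v then some h.choose else none

theorem pinv_apply {A : Type} {N : ℕ} (e : A ↪ Fin N) (w : A) : pinv e (e w) = some w := by
  classical
  unfold pinv
  have h : ∃ w', e w' = e w := ⟨w, rfl⟩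
  simp only [dif_pos h]
  exact congrArg some (e.injective h.choose_spec)

/-- extension of an assignment by `false` -/
noncomputable def up {A : Type} {N : ℕ} (e : A ↪ Fin N) (z : A → Bool) (v : Fin N) : Bool :=
  match pinv e v with
  | some w => z w
  | none => false

theorem up_apply {A : Type} {N : ℕ} (e : A ↪ Fin N) (z : A → Bool) (w : A) :
    up e z (e w) = z w := by
  unfold up
  rw [pinv_apply]

/-- negation normal form over `A`, the variables outside `A` being set to `false` -/
noncomputable def conv {A : Type} {N : ℕ} (e : A ↪ Fin N) (s : Bool) : Fml (Fin N) → T A ⊕ Bool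
  | .const b => .inr (b == s)
  | .var v => match pinv e v with
    | some w => .inl (.lit w s)
    | none => .inr (false == s)
  | .neg f => conv e (!s) f
  | .and f g => comb s (conv e s f) (conv e s g)
  | .or f g => comb (!s) (conv e s f) (conv e s g)

theorem evs_conv {A : Type} {N : ℕ} (e : A ↪ Fin N) (z : A → Bool) (s : Bool)
    (f : Fml (Fin N)) : evs z (conv e s f) = (f.eval (up e z) == s) := by
  induction f generalizing s with
  | const b => rfl
  | var v =>
    simp only [conv, Fml.eval, up]
    cases pinv e v with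
    | some w => rfl
    | none => rfl
  | neg f ih =>
    simp only [conv, Fml.eval, ih]
    cases f.eval (up e z) <;> cases s <;> rfl
  | and f g ihf ihg =>
    simp only [conv, Fml.eval, evs_comb, ihf, ihg]
    cases f.eval (up e z) <;> cases g.eval (up e z) <;> cases s <;> rfl
  | or f g ihf ihg =>
    simp only [conv, Fml.eval, evs_comb, ihf, ihg]
    cases f.eval (up e z) <;> cases g.eval (up e z) <;> cases s <;> rfl

theorem leavess_conv {A : Type} {N : ℕ} (e : A ↪ Fin N) (s : Bool) (f : Fml (Fin N)) :
    leavess (conv e s f) ≤ f.size := by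
  induction f generalizing s with
  | const b => simp [conv, leavess]
  | var v =>
    simp only [conv, Fml.size]
    cases pinv e v with
    | some w => exact le_rfl
    | none => exact Nat.zero_le _
  | neg f ih => exact ih (!s)
  | and f g ihf ihg =>
    exact (leavess_comb _ _ _).trans (add_le_add (ihf s) (ihg s))
  | or f g ihf ihg =>
    exact (leavess_comb _ _ _).trans (add_le_add (ihf s) (ihg s))

/-- renaming of the variables of a clause -/
def ren {A : Type} {N : ℕ} (e : A ↪ Fin N) (c : Finset (A × Bool)) : Clause N :=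
  c.image fun l => (e l.1, l.2)

theorem holds_ren {A : Type} {N : ℕ} (e : A ↪ Fin N) (c : Finset (A × Bool))
    (z : Fin N → Bool) : (ren e c).Holds z ↔ HoldsA (fun w => z (e w)) c := by
  unfold ren Clause.Holds HoldsA
  constructor
  · rintro ⟨l, hl, hz⟩
    rw [mem_image] at hl
    obtain ⟨l', hl', rfl⟩ := hl
    exact ⟨l', hl', hz⟩
  · rintro ⟨l, hl, hz⟩
    exact ⟨_, mem_image_of_mem _ hl, hz⟩

/-- renaming of the variables of a formula -/
def mapF {A V : Type} (e : A → V) : Pool.Agent.H564R2.QF.Fml A → Fml V
  | .const b => .const b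
  | .var v => .var (e v)
  | .neg f => .neg (mapF e f)
  | .and f g => .and (mapF e f) (mapF e g)
  | .or f g => .or (mapF e f) (mapF e g)

theorem mapF_size {A V : Type} (e : A → V) (f : Pool.Agent.H564R2.QF.Fml A) :
    (mapF e f).size = f.size := by
  induction f with
  | const b => rfl
  | var v => rfl
  | neg f ih => simpa [mapF, Fml.size, Pool.Agent.H564R2.QF.Fml.size] using ih
  | and f g hf hg => simp [mapF, Fml.size, Pool.Agent.H564R2.QF.Fml.size, hf, hg]
  | or f g hf hg => simp [mapF, Fml.size, Pool.Agent.H564R2.QF.Fml.size, hf, hg]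

theorem mapF_eval {A V : Type} (e : A → V) (f : Pool.Agent.H564R2.QF.Fml A) (z : V → Bool) :
    (mapF e f).eval z = f.eval (fun a => z (e a)) := by
  induction f with
  | const b => rfl
  | var v => rfl
  | neg f ih => simp [mapF, Fml.eval, Pool.Agent.H564R2.QF.Fml.eval, ih]
  | and f g hf hg => simp [mapF, Fml.eval, Pool.Agent.H564R2.QF.Fml.eval, hf, hg]
  | or f g hf hg => simp [mapF, Fml.eval, Pool.Agent.H564R2.QF.Fml.eval, hf, hg]

/-- a sequence of derived formulas is a refutation -/
theorem refutation_of_SP {A : Type} {N : ℕ} (e : A ↪ Fin N) (C : Finset (Finset (A × Bool)))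
    (Ls : List (Pool.Agent.H564R2.QF.Fml A)) (h : SP C Ls) (s : ℕ) (hs : ∀ φ ∈ Ls, φ.size ≤ s)
    (hfin : ∃ φ ∈ Ls, ∀ z, φ.eval z = false) :
    Nonempty (Refutation (C.image (ren e)) 2 1 s Ls.length) := by
  classical
  have hidx : ∀ j : Fin Ls.length, Ls.length - 1 - j.val < Ls.length := fun j => by
    have := j.2; omega
  have hev : ∀ (j : Fin Ls.length) (z : Fin N → Bool),
      (⟨fun _ => mapF e (Ls[Ls.length - 1 - j.val]'(hidx j)), fun y => y 0⟩ : Line N 1).eval z =
        (Ls[Ls.length - 1 - j.val]'(hidx j)).eval (fun a => z (e a)) := by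
    intro j z
    simp only [Line.eval, mapF_eval]
  refine ⟨⟨fun j => ⟨fun _ => mapF e (Ls[Ls.length - 1 - j.val]'(hidx j)), fun y => y 0⟩,
    ?_, ?_, ?_⟩⟩
  · intro j i
    show (mapF e (Ls[Ls.length - 1 - j.val]'(hidx j))).size ≤ s
    rw [mapF_size]
    exact hs _ (List.getElem_mem _)
  · intro j
    have hj := j.2
    rcases h.get (Ls.length - 1 - j.val) (hidx j) with ⟨c, hc, h1⟩ | h1 | ⟨u, v, hu, hv, h2, h3, h1⟩
    · left
      refine ⟨ren e c, mem_image_of_mem _ hc, fun z hz => ?_⟩
      rw [hev]
      exact h1 _ ((holds_ren e c z).mp hz)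
    · right
      refine ⟨∅, by simp, by simp, fun z _ => ?_⟩
      rw [hev]
      exact h1 _
    · right
      refine ⟨{⟨Ls.length - 1 - u, by omega⟩, ⟨Ls.length - 1 - v, by omega⟩}, card_le_two, ?_, ?_⟩
      · intro p hp
        rw [mem_insert, mem_singleton] at hp
        rw [Fin.lt_def]
        rcases hp with rfl | rfl
        · show Ls.length - 1 - u < j.val
          omega
        · show Ls.length - 1 - v < j.val
          omega
      · intro z hz
        have g1 := hz ⟨Ls.length - 1 - u, by omega⟩ (by simp)
        have g2 := hz ⟨Ls.length - 1 - v, by omega⟩ (by simp)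
        rw [hev] at g1 g2 ⊢
        have e1 : Ls.length - 1 - (Ls.length - 1 - u) = u := by omega
        have e2 : Ls.length - 1 - (Ls.length - 1 - v) = v := by omega
        simp only [e1] at g1
        simp only [e2] at g2
        exact h1 _ g1 g2
  · obtain ⟨φ, hφ, hz⟩ := hfin
    obtain ⟨t, ht, rfl⟩ := List.getElem_of_mem hφ
    refine ⟨⟨Ls.length - 1 - t, by omega⟩, fun z => ?_⟩
    rw [hev]
    have e1 : Ls.length - 1 - (Ls.length - 1 - t) = t := by omega
    simp only [e1]
    exact hz _

/-- For every `ε > 0` there is `δ > 0` such that for all large `N` there is an unsatisfiable CNF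
with `N` variables, at most `N ^ 9` clauses and clauses of width `O(log N)` with the following
properties.  All of its refutations have at least `exp (N ^ δ)` lines, provided that every line is
a Boolean function of at most `N ^ δ` formulas of size at most `N ^ (2 - ε)` and every inference
has at most `N ^ δ` premises.  It has a refutation with at most `N ^ 9` lines which are formulas
of size at most `N ^ (2 + ε)`, every inference having at most two premises. -/
theorem result (ε : ℝ) (hε : 0 < ε) : ∃ (δ : ℝ) (N0 : ℕ), 0 < δ ∧ ∀ N ≥ N0,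
    ∃ F : Finset (Clause N), F.card ≤ N ^ 9 ∧
      (∀ cl ∈ F, cl.card ≤ 8 * Nat.log 2 N + 12) ∧
      (∀ z : Fin N → Bool, ∃ cl ∈ F, ¬ cl.Holds z) ∧
      (∀ a r s S : ℕ, (a : ℝ) ≤ (N : ℝ) ^ δ → (r : ℝ) ≤ (N : ℝ) ^ δ →
        (s : ℝ) ≤ (N : ℝ) ^ (2 - ε) →
        Nonempty (Refutation F a r s S) → Real.exp ((N : ℝ) ^ δ) ≤ S) ∧
      ∃ s S : ℕ, (s : ℝ) ≤ (N : ℝ) ^ (2 + ε) ∧ S ≤ N ^ 9 ∧ Nonempty (Refutation F 2 1 s S) := by
  classical
  -- exponents
  obtain ⟨p, hp⟩ : ∃ p, p = min ε (1 / 2) / 64 := ⟨_, rfl⟩
  have hmin : 0 < min ε (1 / 2) := lt_min hε (by norm_num)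
  have hp0 : 0 < p := by rw [hp]; positivity
  have hp1 : 64 * p ≤ 1 / 2 := by
    rw [hp]
    have := min_le_right ε (1 / 2)
    linarith
  have hpε : 64 * p ≤ ε := by
    rw [hp]
    have := min_le_left ε (1 / 2)
    linarith
  obtain ⟨N0, hnum⟩ := numeric2 p hp0 hp1
  refine ⟨p, max N0 1, hp0, fun N hN => ?_⟩
  have hN1 : 1 ≤ N := (le_max_right _ _).trans hN
  obtain ⟨n, k, κ, s0, d, m, t, hn, hk, hsum, hκ, hs0, ht, htk, hsT, hcount, hfan, hSr, hcard,
    hlen, hsz⟩ := hnum N ((le_max_left _ _).trans hN)
  let A := ((Fin n × Bool) × Fin k) ⊕ ((Fin n × Bool) × Fin κ)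
  have hA : Fintype.card A ≤ N := by
    simp only [A, Fintype.card_sum, Fintype.card_prod, Fintype.card_fin, Fintype.card_bool]
    refine le_trans (le_of_eq ?_) hsum
    ring
  obtain ⟨e⟩ : Nonempty (A ↪ Fin N) :=
    Function.Embedding.nonempty_of_card_le (by rw [Fintype.card_fin]; exact hA)
  obtain ⟨π, h, hD1, hD2, hD3, hD4⟩ := core3 (n := n) (k := k) (κ := κ) hn hk d ht htk hsT m
    (Real.exp (-(N : ℝ) ^ (2 * p))) (Real.exp_pos _)
    (by
      refine lt_of_le_of_lt ?_ hcount
      rw [Fintype.card_fun, Fintype.card_fin, Fintype.card_option, Fintype.card_sum,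
        Fintype.card_prod, Fintype.card_bool, Fintype.card_fun,
        Fintype.card_bool, Fintype.card_fin]
      have e1 : ((Fintype.card (Fin n × Bool) : ℕ) : ℝ) = 2 * n := by
        rw [Fintype.card_prod, Fintype.card_fin, Fintype.card_bool]; push_cast; ring
      rw [e1]
      push_cast
      apply mul_le_mul_of_nonneg_right _ (by positivity)
      apply pow_le_pow_left₀ (by positivity)
      have h1 : (Fintype.card A : ℝ) ≤ N := by exact_mod_cast hA
      have h2 : (Fintype.card (((Fin n × Bool) × Fin k) ⊕ ((Fin n × Bool) × Fin κ)) : ℝ) ≤ N := h1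
      rw [Fintype.card_sum] at h2
      push_cast at h2
      linarith)
  refine ⟨(CNF π h).image (ren e), card_image_le.trans (hD1.trans hcard), ?_, ?_, ?_, ?_⟩
  · intro cl hcl
    rw [mem_image] at hcl
    obtain ⟨c, hc, rfl⟩ := hcl
    refine card_image_le.trans ((hD2 c hc).trans ?_)
    rw [hκ]
    omega
  · intro z
    obtain ⟨c, hc, hcz⟩ := hD3 fun w => z (e w)
    exact ⟨ren e c, mem_image_of_mem _ hc, fun h => hcz ((holds_ren e c z).mp h)⟩
  · rintro a r s S ha hr hs ⟨ref⟩
    by_contra hcon
    push Not at hcon
    obtain ⟨j, hj⟩ := ref.final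
    have hs' : s ≤ s0 := by
      apply hs0
      refine hs.trans ?_
      apply Real.rpow_le_rpow_of_exponent_le (by exact_mod_cast hN1)
      linarith
    have hev : ∀ (z : A → Bool) (j : Fin S),
        (ref.line j).comb (fun l => evs z (conv e true ((ref.line j).parts l))) =
        (ref.line j).eval (up e z) := by
      intro z j
      unfold Line.eval
      congr 1
      funext l
      rw [evs_conv]
      cases ((ref.line j).parts l).eval (up e z) <;> rfl
    obtain ⟨z, hz⟩ := hD4 a r S (fun j l => conv e true ((ref.line j).parts l))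
      (fun j => (ref.line j).comb)
      (fun j l => (leavess_conv e _ _).trans ((ref.size_le j l).trans hs'))
      (hfan a r ha hr) (hSr r S (by positivity) hr hcon)
      (fun j => by
        rcases ref.sound j with ⟨c, hc, hcj⟩ | ⟨P, hP1, hP2, hP3⟩
        · left
          rw [mem_image] at hc
          obtain ⟨c', hc', rfl⟩ := hc
          refine ⟨c', hc', fun z hz => ?_⟩
          rw [hev]
          apply hcj
          rw [holds_ren]
          have : (fun w => up e z (e w)) = z := by
            funext w
            exact up_apply e z w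
          rw [this]
          exact hz
        · right
          refine ⟨P, hP1, hP2, fun z hz => ?_⟩
          rw [hev]
          apply hP3
          intro p hp
          rw [← hev]
          exact hz p hp) j
    rw [hev, hj] at hz
    simp at hz
  · obtain ⟨Ls, g1, g2, g3, g4⟩ := upper2 (by omega) π h
    refine ⟨200 * n * 2 ^ κ, Ls.length, ?_, g2.trans hlen, refutation_of_SP e _ Ls g1 _ g3 g4⟩
    refine hsz.trans ?_
    apply Real.rpow_le_rpow_of_exponent_le (by exact_mod_cast hN1)
    linarith

end Pool.Agent.Results.MP_9cec2c_lc.QuadraticLines
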