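import Mathlib
import Pool.Agent.H592R3.AccDefs
import Pool.Agent.H592R3.GameDefs
import Pool.Agent.H592R3.Cnf3
import Pool.Agent.H592R3.Check

/-!
Interactive proofs of unsatisfiability of CNF formulas with polynomially many clauses, with any
fixed polynomial number of prover bits and small-depth verifiers, need `2 ^ ((1 - ε) n)` gates,
while proofs of satisfiability need `n` bits and a depth-two verifier of linear size.
-/

open SmallDepth DomAC0 H592R3

theorem Pool.Agent.Results.MP_9cec2c_lc.SmallDepthInteractive.result :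
    (∀ ε : ℝ, 0 < ε → ∃ C : ℝ, 0 < C ∧ ∀ n d g w M S : ℕ, 2 ≤ n → 1 ≤ d →
      C * (d * Real.log (n + g)) ≤ w → w ≤ n → n * 2 ^ w ≤ M →
      ∀ G : Game (Fin M × Fin n × Bool), G.Bounded d S g →
      (∀ x, WidthLe x w → ¬ HasModel x → 2 / 3 ≤ G.value x) →
      (∀ x, WidthLe x w → UniqueModel x → HasModel x → G.value x ≤ 1 / 3) →
      (2 : ℝ) ^ ((1 - ε) * n) < S) ∧
    (∀ n M : ℕ, ∃ G : Game (Fin M × Fin n × Bool), G.Bounded 2 (M + 1) n ∧
      ∀ x, (HasModel x → G.value x = 1) ∧ (¬ HasModel x → G.value x = 0)) := by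
  constructor
  · intro ε hε
    obtain ⟨C, hC, h⟩ := cnf_game3 ε hε
    refine ⟨C, hC, ?_⟩
    intro n d g w M S hn hd hw hwn hM G hG hyes hno
    exact h n d g w M S hn hd hw hwn hM G hG (fun x hx hm => hyes x hx hm)
      (fun x hx hu hm => hno x hx hu hm)
  · intro n M
    obtain ⟨e⟩ : Nonempty (Fin (2 ^ n) ≃ (Fin n → Bool)) :=
      ⟨(Fintype.equivFinOfCardEq (by simp)).symm⟩
    refine ⟨.merlin n (fun z => .verify (chk M (e z))), ⟨le_refl n, fun z => ⟨chk_depth _,
      le_refl _⟩⟩, fun x => ⟨?_, ?_⟩⟩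
    · rintro ⟨α, hα⟩
      show (⨆ z, (Game.verify (chk M (e z))).value x) = 1
      apply le_antisymm
      · apply ciSup_le
        intro z
        show (if (chk M (e z)).eval x = true then (1 : ℝ) else 0) ≤ 1
        split_ifs <;> norm_num
      · refine le_trans ?_ (le_ciSup (Set.finite_range _).bddAbove (e.symm α))
        show (1 : ℝ) ≤ if (chk M (e (e.symm α))).eval x = true then (1 : ℝ) else 0
        rw [Equiv.apply_symm_apply, if_pos ((chk_eval α x).2 hα)]
    · intro hx
      show (⨆ z, (Game.verify (chk M (e z))).value x) = 0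
      have : ∀ z : Fin (2 ^ n), (Game.verify (chk M (e z))).value x = 0 := by
        intro z
        show (if (chk M (e z)).eval x = true then (1 : ℝ) else 0) = 0
        rw [if_neg]
        intro h
        exact hx ⟨e z, (chk_eval (e z) x).1 h⟩
      simp_rw [this]
      exact ciSup_const
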