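import Mathlib
import Pool.Agent.H688R2.Cnt.Apply2

namespace H688R2.Cnt

open Equiv H688R2.Gap

/-- **Symmetric extended Frege refutations with gates that count modulo `m`** (`m` arbitrary).
1. If a sentence `∀ x ∃ y θ` has a model with domain `β ⊕ B`, `|β| ≤ |α|`, and `m` divides
   `(|α| - |β|).choose j` for `1 ≤ j ≤ k`, then in every refutation of the statement that the
   sentence has a model with domain `α ⊕ B` that is invariant under the permutations of `α` some
   formula or some wide inference has more than `|α| ^ (k / 2)` images.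
2. This holds for the functional pigeonhole principle, for any numbers of pigeons and holes.
3. It holds for the principle that a set whose size is not divisible by `q` has no partition into
   blocks of size `q`, when `q` and `m` are coprime.
4. What these two principles say. -/
theorem _root_.Pool.Agent.Results.MP_9cec2c_lc.SymmetricCounting.result :
    (∀ (σ : Sig) (Φ : Sentence σ) (m : ℕ) (α B β Q : Type) (_ : Fintype α) (_ : Fintype β)
      (_ : Fintype Q) (_ : MulAction (Perm α) Q) (S : Atom σ (β ⊕ B) → Prop)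
      (F : MDag m (Atom σ (α ⊕ B)) Q) (k w c s : ℕ), Φ.Models S → F.Invariant → 1 ≤ k →
      16 * (k + 1) * (k + 1) * (Nat.log 2 (Fintype.card α) + 1) ≤ Fintype.card α →
      Fintype.card β ≤ Fintype.card α →
      (∀ j, 1 ≤ j → j ≤ k → m ∣ (Fintype.card α - Fintype.card β).choose j) →
      (c + 1) * (w + 1) * (k + Φ.p) + 3 * k + 2 ≤ Fintype.card β →
      (∀ q : Q, Nat.card (MulAction.orbit (Perm α) q) ≤ s) →
      F.Refutes Φ w c s → Fintype.card α ^ k < s ^ 2) ∧
    (∀ (m n : ℕ) (α B Q : Type) (_ : Fintype α) (_ : Fintype B) (_ : Fintype Q)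
      (_ : MulAction (Perm α) Q) (F : MDag m (Atom (holes n) (α ⊕ B)) Q) (k w c s : ℕ),
      F.Invariant → 1 ≤ m → 1 ≤ k → n ≤ Fintype.card α + Fintype.card B →
      16 * (k + 1) * (k + 1) * (Nat.log 2 (Fintype.card α) + 1) ≤ Fintype.card α →
      Fintype.card B + m * k ^ m.primeFactors.card + (c + 1) * (w + 1) * (k + 2) + 3 * k + 2 ≤ n →
      (∀ q : Q, Nat.card (MulAction.orbit (Perm α) q) ≤ s) →
      F.Refutes (fphp n) w c s → Fintype.card α ^ k < s ^ 2) ∧
    (∀ (m q : ℕ) (hq : 0 < q) (α B Q : Type) (_ : Fintype α) (_ : Fintype B) (_ : Fintype Q)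
      (_ : MulAction (Perm α) Q) (F : MDag m (Atom (blockSig q) (α ⊕ B)) Q) (k w c s : ℕ),
      F.Invariant → 1 ≤ m → 1 ≤ k → Nat.Coprime q m →
      16 * (k + 1) * (k + 1) * (Nat.log 2 (Fintype.card α) + 1) ≤ Fintype.card α →
      q * (m * k ^ m.primeFactors.card) + (c + 1) * (w + 1) * (k + 2 * q) + 3 * k + 2
        ≤ Fintype.card α →
      (∀ q : Q, Nat.card (MulAction.orbit (Perm α) q) ≤ s) →
      F.Refutes (counting q hq) w c s → Fintype.card α ^ k < s ^ 2) ∧
    (∀ (n : ℕ) (A : Type) (S : Atom (holes n) A → Prop), (fphp n).Models S ↔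
      ∃ f : A → Fin n, Function.Injective f ∧ ∀ a h, S (sits a h) ↔ f a = h) ∧
    (∀ (q : ℕ) (hq : 0 < q) (A : Type) (_ : Fintype A) (S : Atom (blockSig q) A → Prop),
      (counting q hq).Models S → q ∣ Fintype.card A) := by
  classical
  refine ⟨?_, ?_, ?_, fun n A S => fphp_models_iff S, fun q hq A _ S hS => dvd_of_models hq S hS⟩
  · intro σ Φ m α B β Q _ _ _ _ S F k w c s hS hF hk hK hβ hm hB hQ hR
    by_contra hs
    push Not at hs
    exact not_refutes Φ S hS F hF hk hs hQ hK hβ hm hB hR
  · intro m n α B Q _ _ _ _ F k w c s hF hm hk hn hK hB hQ hR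
    by_contra hs
    push Not at hs
    exact fphp_lower (by omega) hk hn hK hB F hF hs hQ hR
  · intro m q hq α B Q _ _ _ _ F k w c s hF hm hk hqm hK hB hQ hR
    by_contra hs
    push Not at hs
    exact counting_lower (by omega) hk hq hqm hK hB F hF hs hQ hR

end H688R2.Cnt
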